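import Pool.Agent.Y806.DF.A
import Pool.Agent.H137R2.Weak.Final

/-!
# Sets which are dense in the integer points of their convex hull
-/

set_option autoImplicit false

namespace Pool.Agent.Y806.DF

open Finset
open scoped Pointwise

/-- the integer points of the convex hull of a finite set of integer points -/
def hull {d : ℕ} (X : Finset (Fin d → ℤ)) : Set (Fin d → ℤ) :=
  lat (convexHull ℝ (re '' (X : Set (Fin d → ℤ))))

theorem hull_finite {d : ℕ} (X : Finset (Fin d → ℤ)) : (hull X).Finite := by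
  refine lat_finite ?_
  exact ((X.finite_toSet.image re).isCompact_convexHull ℝ).isBounded

theorem subset_hull {d : ℕ} (X : Finset (Fin d → ℤ)) : (X : Set (Fin d → ℤ)) ⊆ hull X := by
  intro x hx
  exact subset_convexHull ℝ _ ⟨x, hx, rfl⟩

/-- the real extension of a homomorphism of lattices -/
noncomputable def ext {r d : ℕ} (φ : (Fin r → ℤ) →+ (Fin d → ℤ)) : (Fin r → ℝ) →ₗ[ℝ] (Fin d → ℝ) where
  toFun w := fun i => ∑ j, w j * (φ (Pi.single j 1) i : ℝ)
  map_add' := by
    intro x y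
    funext i
    simp [add_mul, Finset.sum_add_distrib]
  map_smul' := by
    intro c x
    funext i
    simp [mul_assoc, Finset.mul_sum]

theorem ext_re {r d : ℕ} (φ : (Fin r → ℤ) →+ (Fin d → ℤ)) (v : Fin r → ℤ) : ext φ (re v) = re (φ v) := by
  classical
  funext i
  have h1 : v = ∑ j, v j • (Pi.single j 1 : Fin r → ℤ) := by
    funext k
    rw [Finset.sum_apply, Finset.sum_eq_single k]
    · simp
    · intro b _ hb
      simp [Ne.symm hb]
    · simp
  have h2 : φ v i = ∑ j, v j * φ (Pi.single j 1) i := by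
    conv_lhs => rw [h1]
    rw [map_sum, Finset.sum_apply]
    refine Finset.sum_congr rfl (fun j _ => ?_)
    rw [map_zsmul]
    simp
  show ∑ j, re v j * (φ (Pi.single j 1) i : ℝ) = (φ v i : ℝ)
  rw [h2]
  push_cast
  rfl

/-- translates and embeddings do not increase the number of integer points of the hull -/
theorem hull_map {r d : ℕ} (φ : (Fin r → ℤ) →+ (Fin d → ℤ)) (hφ : Function.Injective φ)
    (t : Fin d → ℤ) (X : Finset (Fin d → ℤ)) (Y : Finset (Fin r → ℤ)) (h : ∀ y ∈ Y, t + φ y ∈ X) :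
    (hull Y).ncard ≤ (hull X).ncard := by
  refine Set.ncard_le_ncard_of_injOn (fun v => t + φ v) ?_ ?_ (hull_finite X)
  · intro v hv
    show re (t + φ v) ∈ convexHull ℝ (re '' (X : Set (Fin d → ℤ)))
    rw [re_add, ← ext_re]
    have h1 : ext φ (re v) ∈ convexHull ℝ (ext φ '' (re '' (Y : Set (Fin r → ℤ)))) := by
      rw [← LinearMap.image_convexHull]
      exact ⟨re v, hv, rfl⟩
    have h2 : re t + ext φ (re v) ∈ re t +ᵥ convexHull ℝ (ext φ '' (re '' (Y : Set (Fin r → ℤ)))) :=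
      ⟨_, h1, rfl⟩
    rw [← convexHull_vadd] at h2
    refine convexHull_mono ?_ h2
    rintro _ ⟨_, ⟨_, ⟨y, hy, rfl⟩, rfl⟩, rfl⟩
    refine ⟨t + φ y, h y hy, ?_⟩
    show re (t + φ y) = re t + ext φ (re y)
    rw [re_add, ext_re]
  · intro v _ w _ hvw
    exact hφ (add_left_cancel hvw)

/-- A finite set of integer points has a large symmetric part. -/
theorem sym_part {r : ℕ} (Y : Finset (Fin r → ℤ)) (hY : Y.Nonempty) {L : ℝ}
    (hL : ((Y + Y).card : ℝ) ≤ L * Y.card) :
    ∃ c : Fin r → ℤ, (Y.card : ℝ) ≤ 4 ^ r * L * ({y ∈ Y | c + c - y ∈ Y}.card : ℝ) := by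
  classical
  let f : (Fin r → ℤ) → (Fin r → ZMod 2) := fun v i => (v i : ZMod 2)
  -- a popular class
  obtain ⟨a, -, ha⟩ : ∃ a ∈ (Finset.univ : Finset (Fin r → ZMod 2)),
      Y.card ≤ 2 ^ r * (Y.filter (fun y => f y = a)).card := by
    by_contra hcon
    push Not at hcon
    have h1 : Y.card = ∑ a : Fin r → ZMod 2, (Y.filter (fun y => f y = a)).card :=
      Finset.card_eq_sum_card_fiberwise (fun x _ => Finset.mem_coe.2 (Finset.mem_univ (f x)))
    have h2 : 2 ^ r * Y.card = ∑ a : Fin r → ZMod 2, 2 ^ r * (Y.filter (fun y => f y = a)).card := by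
      rw [← Finset.mul_sum, ← h1]
    have h3 : ∑ a : Fin r → ZMod 2, 2 ^ r * (Y.filter (fun y => f y = a)).card <
        ∑ _a : Fin r → ZMod 2, Y.card :=
      Finset.sum_lt_sum_of_nonempty Finset.univ_nonempty (fun a ha => hcon a ha)
    rw [Finset.sum_const, Finset.card_univ, Fintype.card_fun, Fintype.card_fin, ZMod.card,
      smul_eq_mul, ← h2] at h3
    exact lt_irrefl _ h3
  set Z := Y.filter (fun y => f y = a) with hZ
  have hYpos : 0 < Y.card := hY.card_pos
  have hZpos : 0 < Z.card := by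
    by_contra h
    have : Z.card = 0 := by omega
    rw [this, mul_zero] at ha
    omega
  -- a popular sum
  have hsumle : (Z + Z).card ≤ (Y + Y).card :=
    Finset.card_le_card (Finset.add_subset_add (Finset.filter_subset _ _) (Finset.filter_subset _ _))
  have hne : (Z + Z).Nonempty := by
    have : Z.Nonempty := Finset.card_pos.1 hZpos
    exact this.add this
  obtain ⟨z, hz, hz2⟩ : ∃ z ∈ Z + Z, Z.card * Z.card ≤
      (Z + Z).card * ((Z ×ˢ Z).filter (fun p => p.1 + p.2 = z)).card := by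
    by_contra hcon
    push Not at hcon
    have h1 : (Z ×ˢ Z).card = ∑ z ∈ Z + Z, ((Z ×ˢ Z).filter (fun p => p.1 + p.2 = z)).card := by
      refine Finset.card_eq_sum_card_fiberwise (fun x hx => ?_)
      have := Finset.mem_product.1 (Finset.mem_coe.1 hx)
      exact Finset.mem_coe.2 (Finset.add_mem_add this.1 this.2)
    have h2 : (Z + Z).card * (Z ×ˢ Z).card =
        ∑ z ∈ Z + Z, (Z + Z).card * ((Z ×ˢ Z).filter (fun p => p.1 + p.2 = z)).card := by
      rw [← Finset.mul_sum, ← h1]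
    have h3 : ∑ z ∈ Z + Z, (Z + Z).card * ((Z ×ˢ Z).filter (fun p => p.1 + p.2 = z)).card <
        ∑ _z ∈ Z + Z, Z.card * Z.card := Finset.sum_lt_sum_of_nonempty hne (fun z hz => hcon z hz)
    rw [Finset.sum_const, smul_eq_mul, ← h2, Finset.card_product] at h3
    exact lt_irrefl _ h3
  -- the centre
  obtain ⟨x0, hx0, y0, hy0, hxy⟩ := Finset.mem_add.1 hz
  have hev : ∀ i, (2 : ℤ) ∣ z i := by
    intro i
    have e1 : (x0 i : ZMod 2) = a i := congrFun (Finset.mem_filter.1 hx0).2 i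
    have e2 : (y0 i : ZMod 2) = a i := congrFun (Finset.mem_filter.1 hy0).2 i
    have e3 : ((z i : ℤ) : ZMod 2) = 0 := by
      rw [← hxy]
      show (((x0 i + y0 i : ℤ)) : ZMod 2) = 0
      rw [Int.cast_add, e1, e2]
      exact CharTwo.add_self_eq_zero _
    have := (ZMod.intCast_zmod_eq_zero_iff_dvd (z i) 2).1 e3
    exact_mod_cast this
  refine ⟨fun i => z i / 2, ?_⟩
  have hzc : (fun i => z i / 2) + (fun i => z i / 2) = z := by
    funext i
    obtain ⟨k, hk⟩ := hev i
    show z i / 2 + z i / 2 = z i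
    rw [hk, Int.mul_ediv_cancel_left _ (by norm_num)]
    ring
  rw [hzc]
  have hcount : ((Z ×ˢ Z).filter (fun p => p.1 + p.2 = z)).card ≤ {y ∈ Y | z - y ∈ Y}.card := by
    refine Finset.card_le_card_of_injOn (fun p => p.1) ?_ ?_
    · intro p hp
      have h1 := Finset.mem_filter.1 (Finset.mem_coe.1 hp)
      have h2 := Finset.mem_product.1 h1.1
      rw [Finset.mem_coe, Finset.mem_filter]
      refine ⟨(Finset.mem_filter.1 h2.1).1, ?_⟩
      have : z - p.1 = p.2 := by rw [← h1.2]; abel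
      rw [this]
      exact (Finset.mem_filter.1 h2.2).1
    · intro p hp q hq hpq
      have h1 := Finset.mem_filter.1 (Finset.mem_coe.1 hp)
      have h2 := Finset.mem_filter.1 (Finset.mem_coe.1 hq)
      have h3 : p.1 = q.1 := hpq
      refine Prod.ext h3 ?_
      have h4 := h1.2.trans h2.2.symm
      rw [h3] at h4
      exact add_left_cancel h4
  -- the numbers
  have hZr : (0 : ℝ) < Z.card := by exact_mod_cast hZpos
  have har : (Y.card : ℝ) ≤ 2 ^ r * Z.card := by exact_mod_cast ha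
  have h5 : (Z.card : ℝ) * Z.card ≤ (Z + Z).card * ({y ∈ Y | z - y ∈ Y}.card : ℝ) := by
    have : Z.card * Z.card ≤ (Z + Z).card * {y ∈ Y | z - y ∈ Y}.card :=
      hz2.trans (Nat.mul_le_mul_left _ hcount)
    exact_mod_cast this
  have h6 : ((Z + Z).card : ℝ) ≤ L * Y.card := (by exact_mod_cast hsumle : ((Z + Z).card : ℝ) ≤ (Y + Y).card).trans hL
  have hL0 : 0 ≤ L := by
    by_contra h
    push Not at h
    have : L * Y.card < 0 := mul_neg_of_neg_of_pos h (by exact_mod_cast hYpos)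
    have h7 : (0 : ℝ) ≤ ((Y + Y).card : ℝ) := by positivity
    linarith
  set N : ℝ := ({y ∈ Y | z - y ∈ Y}.card : ℝ) with hN
  have hN0 : 0 ≤ N := by positivity
  have h7 : (Z.card : ℝ) * Z.card ≤ (L * (2 ^ r * Z.card)) * N :=
    h5.trans (mul_le_mul_of_nonneg_right (h6.trans (mul_le_mul_of_nonneg_left har hL0)) hN0)
  have h8 : (Z.card : ℝ) ≤ 2 ^ r * L * N := by
    refine le_of_mul_le_mul_right ?_ hZr
    linarith
  calc (Y.card : ℝ) ≤ 2 ^ r * Z.card := har
    _ ≤ 2 ^ r * (2 ^ r * L * N) := mul_le_mul_of_nonneg_left h8 (by positivity)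
    _ = 4 ^ r * L * N := by
      rw [show (4 : ℝ) = 2 * 2 by norm_num, mul_pow]
      ring

theorem wm {Γ : Type*} [AddCommGroup Γ] [d : DecidableEq Γ] (K : ℝ) (A : Finset Γ)
    (hA : A.Nonempty) (hK : ((A + A).card : ℝ) ≤ K * (A.card : ℝ)) :
    ∃ (P : AddSubgroup Γ) (S T : Finset Γ), Finite P ∧
      (S.card : ℝ) ≤ 480 * Real.log K + 1 ∧ T ⊆ A ∧ (T.card : ℝ) ≤ K ^ 185 ∧
      ∀ a ∈ A, ∃ t ∈ T, ∃ o : Γ, (∃ m : ℕ, Odd m ∧ m • o = 0) ∧
        a - t - o ∈ P ⊔ AddSubgroup.closure (S : Set Γ) := by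
  have hd : d = (fun a b => Classical.propDecidable (a = b)) := Subsingleton.elim _ _
  subst hd
  obtain ⟨P, S, T, h1, -, -, h2, h3, h4, h5⟩ := H137.Weak.weak_marton hA hK
  exact ⟨P, S, T, h1, h2, h3, h4, h5⟩

/-- **Weak Marton theorem for sets of integer points**: a large part is in a coset of a
group of small rank. -/
theorem reduce {d : ℕ} (X : Finset (Fin d → ℤ)) (hX : X.Nonempty) {K : ℝ} (hK1 : 1 ≤ K)
    (hK : ((X + X).card : ℝ) ≤ K * X.card) :
    ∃ (r : ℕ) (φ : (Fin r → ℤ) →+ (Fin d → ℤ)) (t : Fin d → ℤ) (Y : Finset (Fin r → ℤ)),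
      (r : ℝ) ≤ 480 * Real.log K + 1 ∧ Function.Injective φ ∧ Y.Nonempty ∧
      (X.card : ℝ) ≤ K ^ 185 * Y.card ∧ ∀ y ∈ Y, t + φ y ∈ X := by
  classical
  obtain ⟨P, S, T, hPfin, hS, hTX, hT, hcov⟩ := wm K X hX hK
  -- torsion
  have htor : ∀ (m : ℕ) (x : Fin d → ℤ), m ≠ 0 → m • x = 0 → x = 0 := by
    intro m x hm h
    funext i
    have h1 : (m : ℤ) * x i = 0 := by
      have h2 : (m • x) i = 0 := congrFun h i
      rw [Pi.smul_apply, nsmul_eq_mul] at h2
      exact h2
    rcases mul_eq_zero.1 h1 with h2 | h2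
    · exact absurd (by exact_mod_cast h2) hm
    · exact h2
  have hP : P = ⊥ := by
    rw [eq_bot_iff]
    intro x hx
    have h1 := addOrderOf_pos (⟨x, hx⟩ : P)
    have h2 := addOrderOf_nsmul_eq_zero (⟨x, hx⟩ : P)
    have h3 : addOrderOf (⟨x, hx⟩ : P) • x = 0 := congrArg Subtype.val h2
    exact htor _ x h1.ne' h3
  have hcov' : ∀ a ∈ X, ∃ t ∈ T, a - t ∈ Submodule.span ℤ (S : Set (Fin d → ℤ)) := by
    intro a ha
    obtain ⟨t, ht, o, ⟨m, hm, hmo⟩, hmem⟩ := hcov a ha
    have ho : o = 0 := htor m o (by rintro rfl; exact absurd hm (by decide)) hmo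
    rw [ho, sub_zero, hP, bot_sup_eq] at hmem
    refine ⟨t, ht, ?_⟩
    rw [← AddSubgroup.toIntSubmodule_closure] 
    exact hmem
  -- a popular coset
  have hTne : T.Nonempty := by
    obtain ⟨a, ha⟩ := hX
    obtain ⟨t, ht, -⟩ := hcov' a ha
    exact ⟨t, ht⟩
  obtain ⟨t, ht, ht2⟩ : ∃ t ∈ T, X.card ≤
      T.card * (X.filter (fun a => a - t ∈ Submodule.span ℤ (S : Set (Fin d → ℤ)))).card := by
    by_contra hcon
    push Not at hcon
    have h1 : X ⊆ T.biUnion (fun t => X.filter (fun a => a - t ∈ Submodule.span ℤ (S : Set (Fin d → ℤ)))) := by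
      intro a ha
      obtain ⟨t, ht, hat⟩ := hcov' a ha
      exact Finset.mem_biUnion.2 ⟨t, ht, Finset.mem_filter.2 ⟨ha, hat⟩⟩
    have h2 := (Finset.card_le_card h1).trans Finset.card_biUnion_le
    have h3 : T.card * ∑ t ∈ T, (X.filter (fun a => a - t ∈ Submodule.span ℤ (S : Set (Fin d → ℤ)))).card
        < T.card * X.card := by
      rw [Finset.mul_sum]
      calc ∑ t ∈ T, T.card * (X.filter (fun a => a - t ∈ Submodule.span ℤ (S : Set (Fin d → ℤ)))).card
          < ∑ _t ∈ T, X.card := Finset.sum_lt_sum_of_nonempty hTne (fun t ht => hcon t ht)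
        _ = T.card * X.card := by rw [Finset.sum_const, smul_eq_mul]
    have h4 := Nat.mul_le_mul_left T.card h2
    omega
  set X1 := X.filter (fun a => a - t ∈ Submodule.span ℤ (S : Set (Fin d → ℤ))) with hX1
  let Λ := Submodule.span ℤ (S : Set (Fin d → ℤ))
  let b := Module.finBasis ℤ Λ
  let e := b.equivFun
  let φ : (Fin (Module.finrank ℤ Λ) → ℤ) →+ (Fin d → ℤ) :=
    (Λ.subtype.comp (e.symm : (Fin (Module.finrank ℤ Λ) → ℤ) →ₗ[ℤ] Λ)).toAddMonoidHom
  have hφ : Function.Injective φ := by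
    intro x y hxy
    exact e.symm.injective (Subtype.ext hxy)
  have hfinY : ((fun v => t + φ v) ⁻¹' (X : Set (Fin d → ℤ))).Finite :=
    X.finite_toSet.preimage (fun x _ y _ h => hφ (add_left_cancel h))
  refine ⟨Module.finrank ℤ Λ, φ, t, hfinY.toFinset, ?_, hφ, ?_, ?_, ?_⟩
  · have h1 : (Module.finrank ℤ Λ : ℝ) ≤ S.card := by exact_mod_cast finrank_span_finset_le_card S
    exact h1.trans hS
  · refine ⟨0, ?_⟩
    rw [Set.Finite.mem_toFinset]
    show t + φ 0 ∈ (X : Set (Fin d → ℤ))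
    rw [map_zero, add_zero]
    exact hTX ht
  · have h1 : X1.card ≤ hfinY.toFinset.card := by
      have h2 : X1 ⊆ hfinY.toFinset.image (fun v => t + φ v) := by
        intro x hx
        have hx' := Finset.mem_filter.1 hx
        have e2 : φ (e ⟨x - t, hx'.2⟩) = x - t := by
          show ((e.symm (e ⟨x - t, hx'.2⟩) : Λ) : Fin d → ℤ) = x - t
          rw [LinearEquiv.symm_apply_apply]
        rw [Finset.mem_image]
        refine ⟨e ⟨x - t, hx'.2⟩, ?_, ?_⟩
        · rw [Set.Finite.mem_toFinset]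
          show t + φ _ ∈ (X : Set (Fin d → ℤ))
          rw [e2, add_sub_cancel]
          exact hx'.1
        · show t + φ _ = x
          rw [e2, add_sub_cancel]
      exact (Finset.card_le_card h2).trans Finset.card_image_le
    calc (X.card : ℝ) ≤ T.card * X1.card := by exact_mod_cast ht2
      _ ≤ K ^ 185 * hfinY.toFinset.card :=
        mul_le_mul hT (by exact_mod_cast h1) (by positivity) (by positivity)
  · intro y hy
    rw [Set.Finite.mem_toFinset] at hy
    exact hy

end Pool.Agent.Y806.DF
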