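import Pool.Agent.Y806.DF.C

/-!
# The bound for the dimension comes for free
-/

set_option autoImplicit false

namespace Pool.Agent.Y806.DF

open Finset
open scoped Pointwise

universe u

/-- Q1 of the problem: the polynomial Freiman-Ruzsa conjecture in all abelian groups. -/
def PFR : Prop :=
  ∃ C : ℝ, ∀ (Γ : Type u) [AddCommGroup Γ] [DecidableEq Γ] (K : ℝ) (A : Finset Γ), A.Nonempty →
    ((A + A).card : ℝ) ≤ K * A.card →
    ∃ (d : ℕ) (B : Set (Fin d → ℝ)) (ψ : (Fin d → ℤ) →+ Γ) (H : AddSubgroup Γ) (T : Finset Γ),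
      (d : ℝ) ≤ C * Real.log (2 * K) ∧ Body B ∧ Finite H ∧
      (lat B).ncard * Nat.card H ≤ A.card ∧ (T.card : ℝ) ≤ C * K ^ C ∧ Cov B ψ H T A

/-- The form without dimension: `A` has a large intersection with a coset progression of any
dimension whose set of integer points has small doubling and is dense in its convex hull. -/
def DimFree : Prop :=
  ∃ C : ℝ, ∀ (Γ : Type u) [AddCommGroup Γ] [DecidableEq Γ] (K : ℝ) (A : Finset Γ), A.Nonempty →
    ((A + A).card : ℝ) ≤ K * A.card →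
    ∃ (d : ℕ) (X : Finset (Fin d → ℤ)) (ψ : (Fin d → ℤ) →+ Γ) (H : AddSubgroup Γ) (g : Γ),
      Data (C * K ^ C) A X ψ H g

theorem Data.mono {Γ : Type*} [AddCommGroup Γ] [DecidableEq Γ] {K K' : ℝ} {A : Finset Γ} {d : ℕ}
    {X : Finset (Fin d → ℤ)} {ψ : (Fin d → ℤ) →+ Γ} {H : AddSubgroup Γ} {g : Γ}
    (h : Data K A X ψ H g) (hK : K ≤ K') : Data K' A X ψ H g where
  ne := h.ne
  fin := h.fin
  doubling := h.doubling.trans (mul_le_mul_of_nonneg_right hK (Nat.cast_nonneg _))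
  dense := h.dense.trans (mul_le_mul_of_nonneg_right hK (Nat.cast_nonneg _))
  size := h.size.trans (mul_le_mul_of_nonneg_right hK (Nat.cast_nonneg _))
  meet := h.meet.trans (mul_le_mul_of_nonneg_right hK (Nat.cast_nonneg _))

theorem nat_const (C : ℝ) : ∃ n : ℕ, 1 ≤ n ∧ C ≤ n ∧ ∀ K : ℝ, 1 ≤ K → C * K ^ C ≤ n * K ^ n := by
  refine ⟨max 1 ⌈C⌉₊, le_max_left _ _, ?_, ?_⟩
  · exact (Nat.le_ceil C).trans (by exact_mod_cast le_max_right _ _)
  · intro K hK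
    have h1 : C ≤ (max 1 ⌈C⌉₊ : ℕ) := (Nat.le_ceil C).trans (by exact_mod_cast le_max_right _ _)
    have h2 : K ^ C ≤ K ^ (max 1 ⌈C⌉₊) := by
      rw [← Real.rpow_natCast]
      exact Real.rpow_le_rpow_of_exponent_le hK h1
    have h3 : 0 ≤ K ^ C := Real.rpow_nonneg (by linarith) C
    calc C * K ^ C ≤ (max 1 ⌈C⌉₊ : ℕ) * K ^ C := mul_le_mul_of_nonneg_right h1 h3
      _ ≤ (max 1 ⌈C⌉₊ : ℕ) * K ^ (max 1 ⌈C⌉₊) := mul_le_mul_of_nonneg_left h2 (Nat.cast_nonneg _)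

theorem one_le_K {Γ : Type*} [AddCommGroup Γ] [DecidableEq Γ] {K : ℝ} {A : Finset Γ}
    (hA : A.Nonempty) (hK : ((A + A).card : ℝ) ≤ K * A.card) : 1 ≤ K := by
  have hAr : (0 : ℝ) < A.card := by exact_mod_cast hA.card_pos
  have h1 : (A.card : ℝ) ≤ (A + A).card := by
    exact_mod_cast Finset.card_le_card_add_right hA
  nlinarith

theorem pow_le_rpow {K : ℝ} (hK : 1 ≤ K) {a : ℕ} {b : ℝ} (h : (a : ℝ) ≤ b) : K ^ a ≤ K ^ b := by
  rw [← Real.rpow_natCast]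
  exact Real.rpow_le_rpow_of_exponent_le hK h

theorem free_imp : DimFree.{u} → PFR.{u} := by
  rintro ⟨C, h⟩
  obtain ⟨n, hn1, hn, hCK⟩ := nat_const C
  have hn1r : (1 : ℝ) ≤ n := by exact_mod_cast hn1
  refine ⟨((5000 * n ^ 5000 : ℕ) : ℝ), ?_⟩
  intro Γ _ _ K A hA hK
  have hK1 := one_le_K hA hK
  have hK0 : 0 < K := by linarith
  obtain ⟨d, X, ψ, H, g, hD⟩ := h Γ K A hA hK
  have hD' := hD.mono (hCK K hK1)
  have hKK : K ≤ (n : ℝ) * K ^ n := by
    calc K = 1 * K ^ 1 := by rw [pow_one, one_mul]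
      _ ≤ n * K ^ n := mul_le_mul hn1r (pow_le_pow_right₀ hK1 hn1) (by positivity) (by positivity)
  obtain ⟨r, B, θ, H', T, h1, h2, h3, h4, h5, h6⟩ := main hA
    (hK.trans (mul_le_mul_of_nonneg_right hKK (Nat.cast_nonneg _))) hD'
  have hn5000 : n ≤ n ^ 5000 := by
    calc n = n ^ 1 := (pow_one n).symm
      _ ≤ n ^ 5000 := Nat.pow_le_pow_right hn1 (by norm_num)
  have hn5000r : (n : ℝ) ≤ ((n ^ 5000 : ℕ) : ℝ) := by exact_mod_cast hn5000
  have hlog0 : 0 ≤ Real.log (2 * K) := Real.log_nonneg (by linarith)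
  refine ⟨r, B, θ, H', T, ?_, h2, h3, h4, ?_, h6⟩
  · have h7 : 2 * ((n : ℝ) * K ^ n) ≤ (2 * K) ^ (2 * n) := by
      have e1 : 2 * (n : ℝ) ≤ 2 ^ (2 * n) := by
        have : 2 * n < 2 ^ (2 * n) := Nat.lt_two_pow_self
        exact_mod_cast this.le
      have e2 : K ^ n ≤ K ^ (2 * n) := pow_le_pow_right₀ hK1 (by omega)
      calc 2 * ((n : ℝ) * K ^ n) = (2 * (n : ℝ)) * K ^ n := by ring
        _ ≤ 2 ^ (2 * n) * K ^ (2 * n) := mul_le_mul e1 e2 (by positivity) (by positivity)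
        _ = (2 * K) ^ (2 * n) := (mul_pow _ _ _).symm
    have h8 : Real.log (2 * ((n : ℝ) * K ^ n)) ≤ (2 * n : ℕ) * Real.log (2 * K) := by
      rw [← Real.log_pow]
      exact Real.log_le_log (by positivity) h7
    push_cast at h8
    calc (r : ℝ) ≤ 500 * Real.log (2 * ((n : ℝ) * K ^ n)) := h1
      _ ≤ 500 * (2 * n * Real.log (2 * K)) := mul_le_mul_of_nonneg_left h8 (by norm_num)
      _ = (1000 * n) * Real.log (2 * K) := by ring
      _ ≤ ((5000 * n ^ 5000 : ℕ) : ℝ) * Real.log (2 * K) := by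
        refine mul_le_mul_of_nonneg_right ?_ hlog0
        rw [Nat.cast_mul]
        have : ((5000 : ℕ) : ℝ) = 5000 := by norm_num
        rw [this]
        linarith
  · have h7 : ((n : ℝ) * K ^ n) ^ 5000 = (n : ℝ) ^ 5000 * K ^ (n * 5000) := by
      rw [mul_pow, ← pow_mul]
    have h8 : ((n * 5000 : ℕ) : ℝ) ≤ ((5000 * n ^ 5000 : ℕ) : ℝ) := by
      exact_mod_cast (by rw [mul_comm]; exact Nat.mul_le_mul_left _ hn5000 :
        n * 5000 ≤ 5000 * n ^ 5000)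
    calc (T.card : ℝ) ≤ 5000 * ((n : ℝ) * K ^ n) ^ 5000 := h5
      _ = (5000 * (n : ℝ) ^ 5000) * K ^ (n * 5000) := by rw [h7, mul_assoc]
      _ ≤ (5000 * (n : ℝ) ^ 5000) * K ^ ((5000 * n ^ 5000 : ℕ) : ℝ) :=
        mul_le_mul_of_nonneg_left (pow_le_rpow hK1 h8) (by positivity)
      _ = ((5000 * n ^ 5000 : ℕ) : ℝ) * K ^ ((5000 * n ^ 5000 : ℕ) : ℝ) := by
        congr 1
        rw [Nat.cast_mul, Nat.cast_pow]
        norm_num

theorem imp_free : PFR.{u} → DimFree.{u} := by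
  classical
  rintro ⟨C, h⟩
  obtain ⟨n, hn1, hn, hCK⟩ := nat_const C
  refine ⟨((4 ^ n : ℕ) : ℝ), ?_⟩
  intro Γ _ _ K A hA hK
  have hK1 := one_le_K hA hK
  have hK0 : 0 < K := by linarith
  have hlog0 : 0 ≤ Real.log (2 * K) := Real.log_nonneg (by linarith)
  obtain ⟨d, B, ψ, H, T, hd, hB, hH, hvol, hT, hcov⟩ := h Γ K A hA hK
  have hsym : Sym B := ⟨hB.1, hB.2.1, hB.2.2.2, hB.2.2.1.mono interior_subset⟩
  have hfin : (lat B).Finite := lat_finite hB.2.1.isBounded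
  -- numbers
  have h4n : 2 * n ≤ 4 ^ n := by
    calc 2 * n ≤ 2 ^ (2 * n) := Nat.lt_two_pow_self.le
      _ = 4 ^ n := by rw [pow_mul]; norm_num
  have h4nr : ((2 * n : ℕ) : ℝ) ≤ ((4 ^ n : ℕ) : ℝ) := by exact_mod_cast h4n
  have hbig : ((n : ℕ) : ℝ) * K ^ n ≤ ((4 ^ n : ℕ) : ℝ) * K ^ ((4 ^ n : ℕ) : ℝ) := by
    have e1 : ((n : ℕ) : ℝ) ≤ ((4 ^ n : ℕ) : ℝ) := by exact_mod_cast (by omega : n ≤ 4 ^ n)
    exact mul_le_mul e1 (pow_le_rpow hK1 e1) (by positivity) (Nat.cast_nonneg _)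
  have hone : (1 : ℝ) ≤ ((4 ^ n : ℕ) : ℝ) * K ^ ((4 ^ n : ℕ) : ℝ) := by
    have e1 : (1 : ℝ) ≤ ((4 ^ n : ℕ) : ℝ) := by exact_mod_cast (by omega : 1 ≤ 4 ^ n)
    have e2 : (1 : ℝ) ≤ K ^ ((4 ^ n : ℕ) : ℝ) := Real.one_le_rpow hK1 (Nat.cast_nonneg _)
    nlinarith
  have hdd : (4 : ℝ) ^ d ≤ ((4 ^ n : ℕ) : ℝ) * K ^ ((4 ^ n : ℕ) : ℝ) := by
    have e1 : (d : ℝ) ≤ n * Real.log (2 * K) := hd.trans (mul_le_mul_of_nonneg_right hn hlog0)
    have e2 : Real.log 4 ≤ 2 := by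
      rw [show (4 : ℝ) = 2 ^ 2 by norm_num, Real.log_pow]
      have := Real.log_two_lt_d9
      push_cast
      linarith
    have e3 : Real.log ((4 : ℝ) ^ d) ≤ Real.log ((2 * K) ^ (2 * n)) := by
      rw [Real.log_pow, Real.log_pow]
      calc (d : ℝ) * Real.log 4 ≤ d * 2 := mul_le_mul_of_nonneg_left e2 (Nat.cast_nonneg _)
        _ ≤ (n * Real.log (2 * K)) * 2 := mul_le_mul_of_nonneg_right e1 (by norm_num)
        _ = ((2 * n : ℕ) : ℝ) * Real.log (2 * K) := by push_cast; ring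
    have e4 : (4 : ℝ) ^ d ≤ (2 * K) ^ (2 * n) := (Real.log_le_log_iff (by positivity) (by positivity)).1 e3
    calc (4 : ℝ) ^ d ≤ (2 * K) ^ (2 * n) := e4
      _ = ((4 ^ n : ℕ) : ℝ) * K ^ (2 * n) := by
        rw [mul_pow, pow_mul 2 2 n]
        push_cast
        norm_num
      _ ≤ ((4 ^ n : ℕ) : ℝ) * K ^ ((4 ^ n : ℕ) : ℝ) :=
        mul_le_mul_of_nonneg_left (pow_le_rpow hK1 h4nr) (Nat.cast_nonneg _)
  -- the popular translate
  obtain ⟨t, ht, ht2⟩ := pigeon T A A hA (fun t a => ∃ x ∈ hfin.toFinset, ∃ h ∈ H, a = t + ψ x + h)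
    subset_rfl (by
      intro a ha
      obtain ⟨t, ht, x, hx, h, hh, e⟩ := hcov a ha
      exact ⟨t, ht, x, (Set.Finite.mem_toFinset _).2 hx, h, hh, e⟩)
  refine ⟨d, hfin.toFinset, ψ, H, t, ⟨?_, hH, ?_, ?_, ?_, ?_⟩⟩
  · refine ⟨0, ?_⟩
    rw [Set.Finite.mem_toFinset]
    show re 0 ∈ B
    have : re (0 : Fin d → ℤ) = 0 := by funext i; simp [re]
    rw [this]
    exact hsym.zero
  · have h1 : (hfin.toFinset + hfin.toFinset).card ≤ num B 2 := by
      rw [num, Set.ncard_eq_toFinset_card _ (hsym.finite 2)]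
      refine Finset.card_le_card ?_
      intro x hx
      obtain ⟨a, ha, b, hb, rfl⟩ := Finset.mem_add.1 hx
      rw [Set.Finite.mem_toFinset] at ha hb ⊢
      have ha' : a ∈ lat ((1 : ℝ) • B) := by rw [one_smul]; exact ha
      have hb' : b ∈ lat ((1 : ℝ) • B) := by rw [one_smul]; exact hb
      have h2 := hsym.add (by norm_num) (by norm_num) ha' hb'
      norm_num at h2
      exact h2
    have h2 : num B 2 ≤ 4 ^ d * hfin.toFinset.card := by
      have h3 := num_double hsym (t := 1) (by norm_num)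
      rw [mul_one] at h3
      have h4 : num B 1 = hfin.toFinset.card := by
        rw [num, one_smul]
        exact Set.ncard_eq_toFinset_card _ hfin
      rwa [h4] at h3
    calc ((hfin.toFinset + hfin.toFinset).card : ℝ) ≤ ((4 ^ d * hfin.toFinset.card : ℕ) : ℝ) := by
          exact_mod_cast h1.trans h2
      _ = (4 : ℝ) ^ d * hfin.toFinset.card := by push_cast; rfl
      _ ≤ _ := mul_le_mul_of_nonneg_right hdd (Nat.cast_nonneg _)
  · have h1 : hull hfin.toFinset ⊆ (hfin.toFinset : Set (Fin d → ℤ)) := by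
      intro v hv
      rw [Finset.mem_coe, Set.Finite.mem_toFinset]
      refine convexHull_min ?_ hsym.conv hv
      rintro _ ⟨x, hx, rfl⟩
      rw [Finset.mem_coe, Set.Finite.mem_toFinset] at hx
      exact hx
    have h2 := Set.ncard_le_ncard h1 (Finset.finite_toSet _)
    rw [Set.ncard_coe_finset] at h2
    calc ((hull hfin.toFinset).ncard : ℝ) ≤ 1 * hfin.toFinset.card := by rw [one_mul]; exact_mod_cast h2
      _ ≤ _ := mul_le_mul_of_nonneg_right hone (Nat.cast_nonneg _)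
  · have h1 : (hfin.toFinset.card : ℝ) * Nat.card H ≤ 1 * A.card := by
      rw [one_mul]
      rw [Set.ncard_eq_toFinset_card _ hfin] at hvol
      exact_mod_cast hvol
    exact h1.trans (mul_le_mul_of_nonneg_right hone (Nat.cast_nonneg _))
  · have h1 : {a : Γ | a ∈ A ∧ ∃ x ∈ hfin.toFinset, ∃ h ∈ H, a = t + ψ x + h} =
        ((A.filter (fun a => ∃ x ∈ hfin.toFinset, ∃ h ∈ H, a = t + ψ x + h) : Finset Γ) : Set Γ) := by
      rw [Finset.coe_filter]
    rw [h1, Set.ncard_coe_finset]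
    have hT' : (T.card : ℝ) ≤ ((4 ^ n : ℕ) : ℝ) * K ^ ((4 ^ n : ℕ) : ℝ) :=
      (hT.trans (hCK K hK1)).trans hbig
    calc (A.card : ℝ) ≤ T.card * (A.filter (fun a => ∃ x ∈ hfin.toFinset, ∃ h ∈ H, a = t + ψ x + h)).card := by
          exact_mod_cast ht2
      _ ≤ _ := mul_le_mul_of_nonneg_right hT' (Nat.cast_nonneg _)

/-- Sets of integer points which are dense in their convex hull, in any dimension. -/
theorem dense_sets {d : ℕ} {K : ℝ} {A : Finset (Fin d → ℤ)} (hA : A.Nonempty)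
    (hK : ((A + A).card : ℝ) ≤ K * A.card) (hh : ((hull A).ncard : ℝ) ≤ K * A.card) :
    Data K A A (AddMonoidHom.id (Fin d → ℤ)) ⊥ 0 := by
  have hK1 := one_le_K hA hK
  have h1 : (A.card : ℝ) ≤ K * A.card := by
    calc (A.card : ℝ) = 1 * A.card := (one_mul _).symm
      _ ≤ K * A.card := mul_le_mul_of_nonneg_right hK1 (Nat.cast_nonneg _)
  refine ⟨hA, inferInstance, hK, hh, ?_, ?_⟩
  · have : Nat.card (⊥ : AddSubgroup (Fin d → ℤ)) = 1 := by simp
    rw [this, Nat.cast_one, mul_one]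
    exact h1
  · have h2 : {a : Fin d → ℤ | a ∈ A ∧ ∃ x ∈ A, ∃ h ∈ (⊥ : AddSubgroup (Fin d → ℤ)),
        a = 0 + (AddMonoidHom.id (Fin d → ℤ)) x + h} = (A : Set (Fin d → ℤ)) := by
      ext a
      constructor
      · rintro ⟨ha, -⟩
        exact ha
      · intro ha
        exact ⟨ha, a, ha, 0, AddSubgroup.zero_mem _, by simp⟩
    rw [h2, Set.ncard_coe_finset]
    exact h1

end Pool.Agent.Y806.DF
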